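import Pool.Agent.R593.Hd.Main

/-!
# The uniformity numbers of the Hausdorff-null ideals agree below the top dimension

In ZFC, `non(N^r_n) = non(N^s_n)` for all `0 < r < s < n`; moreover the value depends neither on
the dimension `r` nor on `n`: `non(N^r_n) = non(N^s_m)` whenever `0 < r < n` and `0 < s < m`.

Idea. Code a non-null set by a set `X` of binary sequences of positive `ρ`-dimensional content,
`ρ = r / n`, and fix `σ < 1`. Let blocks of the target sequence have length proportional to their
position `a`, let `h = c a` and let `K` be about `2^(ρ h / 2)`. If `k` is large then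
`2^(2 a) ≤ (K + 1)^k`, and a random coloring `c` of the `k`-th power of `2^h` by blocks has, for
every family of small targets indexed by histories, the following nested avoidance property:
for all but `K` many `z_1`, for all but `K` many `z_2`, ..., for all but `K` many `z_k` the color
of `(z_1, ..., z_k)` avoids the target of its history. Take the targets to be the extensions
with too much weight of a given light cover of the image of `X^k`. The sum of `K 2^(-ρ h)` over
all blocks converges, so one can choose `x_1`, `x_2`, ..., `x_k` in `X` one after the other so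
that all late targets are avoided, hence the image of `X^k` has positive `σ`-content.
-/

namespace Pool.Agent.Results.MP_eebbd0_lc.HausdorffUniformity

open MeasureTheory

/-- The ideal of the subsets of `ℝ^n` (with the Euclidean metric) whose `t`-dimensional Hausdorff
outer measure is zero. -/
def HNull (n : ℕ) (t : ℝ) : Set (Set (EuclideanSpace ℝ (Fin n))) :=
  {A | Measure.hausdorffMeasure t A = 0}

/-- The uniformity number of a family `I` of sets: the least cardinality of a set
outside `I`. -/
noncomputable def uniformity {α : Type} (I : Set (Set α)) : Cardinal :=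
  sInf {κ | ∃ X : Set α, X ∉ I ∧ Cardinal.mk X = κ}

theorem uniformity_le {n m : ℕ} (hn : 0 < n) (hm : 0 < m) {r s : ℝ} (hr : 0 < r) (hrn : r < n)
    (hs : 0 < s) (hsm : s < m) : uniformity (HNull m s) ≤ uniformity (HNull n r) := by
  have hne : {κ | ∃ X : Set (EuclideanSpace ℝ (Fin n)), X ∉ HNull n r ∧
      Cardinal.mk X = κ}.Nonempty :=
    ⟨_, Set.univ, Pool.Agent.R593.Hd.univ_ne_zero hrn.le, rfl⟩
  obtain ⟨X, hX, hκ⟩ := csInf_mem hne
  obtain ⟨Z, hZ, hZX⟩ := Pool.Agent.R593.Hd.transfer hn hm hr hs hsm hX
  calc uniformity (HNull m s) ≤ Cardinal.mk Z := csInf_le' ⟨Z, hZ, rfl⟩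
    _ ≤ Cardinal.mk X := hZX
    _ = uniformity (HNull n r) := hκ

theorem pos_of_lt {n : ℕ} {r : ℝ} (hr : 0 < r) (hrn : r < n) : 0 < n := by
  have : (0:ℝ) < n := hr.trans hrn
  exact_mod_cast this

/-- ZFC proves that `non(N^r_n) = non(N^s_n)` whenever `0 < r < s < n`, and, more generally, that
`non(N^r_n) = non(N^s_m)` whenever `0 < r < n` and `0 < s < m`. -/
theorem result :
    (∀ (n : ℕ) (r s : ℝ), 1 ≤ n → 0 < r → r < s → s < n →
      uniformity (HNull n r) = uniformity (HNull n s)) ∧
    (∀ (n m : ℕ) (r s : ℝ), 1 ≤ n → 1 ≤ m → 0 < r → r < n → 0 < s → s < m →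
      uniformity (HNull n r) = uniformity (HNull m s)) := by
  have main : ∀ (n m : ℕ) (r s : ℝ), 0 < r → r < n → 0 < s → s < m →
      uniformity (HNull n r) = uniformity (HNull m s) := by
    intro n m r s hr hrn hs hsm
    have hn := pos_of_lt hr hrn
    have hm := pos_of_lt hs hsm
    exact le_antisymm (uniformity_le hm hn hs hsm hr hrn) (uniformity_le hn hm hr hrn hs hsm)
  constructor
  · intro n r s _ hr hrs hsn
    exact main n n r s hr (hrs.trans hsn) (hr.trans hrs) hsn
  · intro n m r s _ _ hr hrn hs hsm
    exact main n m r s hr hrn hs hsm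

end Pool.Agent.Results.MP_eebbd0_lc.HausdorffUniformity
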